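import Mathlib

set_option autoImplicit false

namespace Pool.Agent.Results.MP_4cb54f_co.Bound

lemma key (x y e n p q D : ℤ) (hn : 0 < n) (he : 0 < e) (hx : e ≤ x) (hy : e ≤ y)
    (h1 : e * n = D) (h2 : x * p = D) (h3 : y * q = D)
    (h4 : D + x * y = (e - 1) * (x + y + 1)) : False := by
  have hD : 0 < D := by rw [← h1]; positivity
  have hp : 0 < p := by by_contra h; nlinarith
  have hq : 0 < q := by by_contra h; nlinarith
  have hpn : p ≤ n := by by_contra h; nlinarith
  have hqn : q ≤ n := by by_contra h; nlinarith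
  have hne : n < e := by
    by_contra h
    nlinarith [mul_pos (show 0 < x - e + 1 by omega) (show 0 < y - e + 1 by omega)]
  have a : x * y * (p * q) = D * D := by rw [← h2, mul_assoc x p, h2, ← h3]; nlinarith
  have b : (x + y + 1) * (p * q) = D * q + D * p + p * q := by
    linear_combination q * h2 + p * h3
  have c : (e - 1) * n = D - n := by linear_combination h1
  have d : D * (p * q * n) + D * D * n = (D - n) * (D * q + D * p + p * q) := by
    rw [← b, ← c, ← a]
    linear_combination (p * q * n) * h4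
  obtain ⟨W, hW⟩ : ∃ W, W = D * (p + q - n) + p * q - n * (p + q) - p * q * n := ⟨_, rfl⟩
  have h5 : n * p * q = D * W := by rw [hW]; linear_combination d
  have h6 : p * q = e * W := by
    refine mul_left_cancel₀ hn.ne' ?_
    linear_combination h5 - W * h1
  have hW0 : 0 < W := by
    by_contra h
    nlinarith [mul_pos hp hq]
  have hW1 : W < n := by
    by_contra h
    nlinarith [mul_le_mul hpn hqn hq.le hn.le]
  have h7 : W + n * (p + q) - p * q = D * (p + q - n - W) := by
    linear_combination hW - h5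
  have h8 : 0 < D * (p + q - n - W) := by nlinarith
  have h9 : D * (p + q - n - W) < D * 1 := by
    nlinarith [mul_nonneg (sub_nonneg.2 hpn) (sub_nonneg.2 hqn)]
  have h10 := lt_of_mul_lt_mul_left h9 hD.le
  have h11 := (mul_pos_iff_of_pos_left hD).1 h8
  omega

/-- Every admissible parameter set `(v, r, c)` has `v ≥ r + c - 1`. -/
theorem result (v r c e : ℕ) (hr : 2 ≤ r) (hc : 2 ≤ c) (hv : max r c < v) (hv2 : 2 * v ≤ r * c)
    (he : e * v = r * c) (h1 : r - 1 ∣ c * (e - 1)) (h2 : c - 1 ∣ r * (e - 1)) :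
    r + c - 1 ≤ v := by
  by_contra h
  obtain ⟨x, rfl⟩ : ∃ x, r = x + 1 := ⟨r - 1, by omega⟩
  obtain ⟨y, rfl⟩ : ∃ y, c = y + 1 := ⟨c - 1, by omega⟩
  obtain ⟨E, rfl⟩ : ∃ E, e = E + 1 := ⟨e - 1, by
    rcases Nat.eq_zero_or_pos e with rfl | h0
    · simp at he
    · omega⟩
  obtain ⟨a, ha⟩ := h1
  obtain ⟨b, hb⟩ := h2
  simp only [add_tsub_cancel_right, max_lt_iff] at ha hb hv
  have hx : E + 1 ≤ x := by by_contra h; nlinarith [hv.2]
  have hy : E + 1 ≤ y := by by_contra h; nlinarith [hv.1]
  have hn : v ≤ x + y := by omega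
  zify at ha hb he hx hy hn
  exact key x y (E + 1) (x + y + 1 - v) (E - y + a) (E - x + b) ((E + 1) * (x + y + 1 - v))
    (by omega) (by omega) hx hy rfl (by linear_combination he - ha) (by linear_combination he - hb)
    (by linear_combination -he)

end Pool.Agent.Results.MP_4cb54f_co.Bound
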